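import Pool.Agent.H734_az.Final

open Pool.Agent.Helper848 Pool.Agent.H734Az

/-- The number of domino tilings of the Aztec diamond of order `n` with the two cells centred at
`(-1/2, -1/2)` and `(1/2, 3/2)` removed, for every `n ≥ 2`, in closed form. -/
theorem Pool.Agent.Results.MP_b90a94_co.KnightAztec.result (m : ℕ) :
    (1 ≤ m → (numTilings (region (4 * m)) : ℚ) =
      2 ^ ((4 * m) * (4 * m + 1) / 2) * (m * r m * (1 + r m) / 2)) ∧
    (1 ≤ m → (numTilings (region (4 * m + 1)) : ℚ) =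
      2 ^ ((4 * m + 1) * (4 * m + 2) / 2) * ((2 * m + 1) * r m * (1 - r m) / 4)) ∧
    ((numTilings (region (4 * m + 2)) : ℚ) =
      2 ^ ((4 * m + 2) * (4 * m + 3) / 2) * ((2 * m + 1) * r m / 4)) ∧
    ((numTilings (region (4 * m + 3)) : ℚ) =
      2 ^ ((4 * m + 3) * (4 * m + 4) / 2) * ((m + 1) * r (m + 1) / 2)) :=
  ⟨T0 m, T1 m, T2 m, T3 m⟩
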